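import Pool.Agent.H967R3.CP.Dual

set_option autoImplicit false
open Filter

namespace Pool.Agent.Results.MP_b28f50_lc.DualBLeV

/-- The dual inequality `b ≤ v_2^const`: if `Pi0` is a set of fewer than `b` predictors (every family
of at most `|Pi0|` functions in `ω^ω` is bounded), then one real `x` is constantly predicted by no
member of `Pi0`. -/
theorem result :
    ∀ Pi0 : Set (List Bool → Bool),
      (∀ F : Set (ℕ → ℕ), Cardinal.mk F ≤ Cardinal.mk Pi0 →
        ∃ g : ℕ → ℕ, ∀ f ∈ F, ∀ᶠ n in atTop, f n ≤ g n) →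
      ∃ x : ℕ → Bool, ∀ π ∈ Pi0, ∀ k : ℕ,
        ∃ᶠ n in atTop, ∀ i ∈ Finset.Ico n (n + k),
          x i ≠ π ((List.range i).map x) := by
  intro Pi0 hb
  exact H967CP.dual_version Pi0 hb

end Pool.Agent.Results.MP_b28f50_lc.DualBLeV
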