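import Pool.Agent.H967R3.CP.W1

set_option autoImplicit false
open Filter

namespace Pool.Agent.Results.MP_b28f50_lc.EvasionBelowAlephOmega1

/-- Kada's inequality `e_2^const ≤ d` holds whenever `d < ℵ_{ω₁}`: for every dominating family `D`
with `|D| < ℵ_{ω₁}` there is a set `E` of at most `|D|` reals which is not constantly predicted by
any single predictor. -/
theorem result :
    ∀ D : Set (ℕ → ℕ), Cardinal.mk D < Cardinal.aleph (Ordinal.omega 1) →
      (∀ g : ℕ → ℕ, ∃ f ∈ D, ∀ᶠ n in atTop, g n ≤ f n) →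
      ∃ E : Set (ℕ → Bool),
        Cardinal.mk E ≤ Cardinal.mk D ∧
        ∀ π : List Bool → Bool, ∃ f ∈ E, ∀ k : ℕ,
          ∃ᶠ n in atTop, ∀ i ∈ Finset.Ico n (n + k),
            f i ≠ π ((List.range i).map f) := by
  intro D hω hD
  exact H967CP.aleph_omega1_version D hD hω

end Pool.Agent.Results.MP_b28f50_lc.EvasionBelowAlephOmega1
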