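import Pool.Agent.H967R3.CP.Cof

set_option autoImplicit false
open Filter

namespace Pool.Agent.Results.MP_b28f50_lc.EvasionLeCof

/-- `e_2^const ≤ cof([d]^{≤ω}, ⊆)`: if `D` is dominating and `𝒜` is a family of countable sets
cofinal in the countable subsets of `D`, then some set `E` of at most `|𝒜|` reals is not
constantly predicted by any single predictor. -/
theorem result :
    ∀ D : Set (ℕ → ℕ),
      (∀ g : ℕ → ℕ, ∃ f ∈ D, ∀ᶠ n in atTop, g n ≤ f n) →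
      ∀ 𝒜 : Set (Set (ℕ → ℕ)), (∀ A ∈ 𝒜, A.Countable) →
        (∀ B : Set (ℕ → ℕ), B ⊆ D → B.Countable → ∃ A ∈ 𝒜, B ⊆ A) →
      ∃ E : Set (ℕ → Bool),
        Cardinal.mk E ≤ Cardinal.mk 𝒜 ∧
        ∀ π : List Bool → Bool, ∃ f ∈ E, ∀ k : ℕ,
          ∃ᶠ n in atTop, ∀ i ∈ Finset.Ico n (n + k),
            f i ≠ π ((List.range i).map f) := by
  intro D hD 𝒜 hc hcof
  exact H967CP.cof_version D hD 𝒜 hc (fun B hB hBc => hcof B hB hBc)

end Pool.Agent.Results.MP_b28f50_lc.EvasionLeCof
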