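import Pool.Agent.H967R3.CP.Scale

set_option autoImplicit false
open Filter

namespace Pool.Agent.Results.MP_b28f50_lc.EvasionWhenBEqD

/-- If `b = d` then `e_2^const ≤ d`: let `D` be a dominating family such that every family of fewer
than `|D|` functions is bounded; then some set `E` of at most `|D|` reals is not constantly
predicted by any single predictor. -/
theorem result :
    ∀ D : Set (ℕ → ℕ),
      (∀ g : ℕ → ℕ, ∃ f ∈ D, ∀ᶠ n in atTop, g n ≤ f n) →
      (∀ F : Set (ℕ → ℕ), Cardinal.mk F < Cardinal.mk D →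
        ∃ g : ℕ → ℕ, ∀ f ∈ F, ∀ᶠ n in atTop, f n ≤ g n) →
      ∃ E : Set (ℕ → Bool),
        Cardinal.mk E ≤ Cardinal.mk D ∧
        ∀ π : List Bool → Bool, ∃ f ∈ E, ∀ k : ℕ,
          ∃ᶠ n in atTop, ∀ i ∈ Finset.Ico n (n + k),
            f i ≠ π ((List.range i).map f) := by
  intro D hD hb
  exact H967CP.scale_version D hD hb

end Pool.Agent.Results.MP_b28f50_lc.EvasionWhenBEqD
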